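import Pool.Agent.Work.MP_2738db_nt_U.Interface

/-!
Theorem Z for the Fermat-Catalan conjecture (MP_2738db_nt): the power saving version of Theorem U.
Statements of the blocks.  Proofs: `BLUEPRINT.md`.
-/

set_option autoImplicit false

namespace Pool.Agent.Work.MP_2738db_nt_Z

open Finset
open Pool.Agent.Work.MP_2738db_nt_U (PY LM)

/-- the primes `q ≤ exp t`, `q = 1` modulo `d` -/
noncomputable def PR (t : ℝ) (d : ℕ) : Finset ℕ :=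
  (Finset.range (⌊Real.exp t⌋₊ + 1)).filter (fun q => q.Prime ∧ q % d = 1 % d)

/-- **SUP**: primes `1` modulo `d` up to `d ^ C` (Linnik), lower bound of the right order, for all
`d` outside the multiples of one large exceptional modulus `e`. -/
def Stmt_Sup : Prop :=
  ∃ κ : ℝ, 0 < κ ∧ ∀ A : ℕ, ∃ T : ℝ, ∀ t : ℝ, T ≤ t → ∃ e : ℕ, t ^ A < e ∧
    ∀ d : ℕ, 1 ≤ d → (d : ℝ) ≤ Real.exp (κ * t) → ¬ e ∣ d →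
      Real.exp t / (2 * d.totient * t) ≤ ((PR t d).card : ℝ)

/-- the number of `k₀`-sieving primes: `q = 1 + 2 l d k₀ ≤ exp t` prime, `d ∈ D` -/
noncomputable def DQ (t : ℝ) (l k₀ : ℕ) (D : Finset ℕ) : Finset ℕ :=
  D.filter (fun d => (1 + 2 * l * d * k₀).Prime ∧ ((1 + 2 * l * d * k₀ : ℕ) : ℝ) ≤ Real.exp t)

/-- the range of `k₀` -/
noncomputable def KZ (t D₀ : ℝ) (l : ℕ) : ℝ := Real.exp t / (2 * l * D₀)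

/-- **DPR**: a set `D` of divisors of the product of the primes in `(y, 2y]`, in one dyadic
interval, such that outside any small set `E` there is a `k₀` with very many sieving primes. -/
def Stmt_Dpr : Prop :=
  ∀ η : ℝ, 0 < η → η ≤ 1 → ∃ γ : ℝ, 0 < γ ∧ ∀ A : ℕ, ∃ T : ℝ, ∀ t y : ℝ, T ≤ t →
    t ^ (1 + η) ≤ y → y ≤ t ^ A → ∀ l : ℕ, l.Prime → (l : ℝ) ≤ t ^ A →
      ∃ (D : Finset ℕ) (D₀ : ℝ), 1 ≤ D₀ ∧ D₀ ≤ Real.exp (t / 40) ∧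
        (∀ d ∈ D, D₀ ≤ d ∧ (d : ℝ) ≤ 2 * D₀ ∧ d ∣ ∏ r ∈ PY y, r) ∧
        ∀ E : Finset ℕ, (E.card : ℝ) ≤ KZ t D₀ l / (64 * t) →
          ∃ k₀ : ℕ, k₀ ∉ E ∧ 1 ≤ k₀ ∧ (k₀ : ℝ) ≤ KZ t D₀ l ∧
            Real.exp (γ * t) ≤ ((DQ t l k₀ D).card : ℝ)

/-- **SMZ**: few `k₀ ≤ K` have a large common divisor with a given `k ≤ exp (exp (t^(1-η)))`. -/
def Stmt_Smz : Prop :=
  ∀ η : ℝ, 0 < η → η < 1 → ∃ T : ℝ, ∀ t K : ℝ, T ≤ t → Real.exp (t / 2) ≤ K → K ≤ Real.exp t →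
    ∀ k : ℕ, 1 ≤ k → Real.log k ≤ Real.exp (t ^ (1 - η)) →
    (((Icc 1 ⌊K⌋₊).filter (fun k₀ => K ^ (3 / 10 : ℝ) < (Nat.gcd k k₀ : ℝ))).card : ℝ)
      ≤ K / (256 * t)

/-- **MOM**: the moment sieve. -/
def Stmt_Mom : Prop :=
  ∀ (Q : Finset ℕ) (z N r : ℕ), (∀ q ∈ Q, q.Prime ∧ q ≤ z) → Q.Nonempty → 1 ≤ r →
    ∀ P : ℕ → ℕ → Prop,
    (∀ q ∈ Q, ∀ c c' : ℕ, (c : ZMod q) = (c' : ZMod q) → P q c → P q c') →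
    (∀ q ∈ Q, 6 * Nat.card {x : Fin q // P q (x : ℕ)} ≤ 5 * q) →
    (Nat.card {c : ℕ // 1 ≤ c ∧ c ≤ N ∧ ∀ q ∈ Q, P q c} : ℝ)
      ≤ N * (36 * (r : ℝ) ^ 2 / Q.card) ^ r + (36 * (z : ℝ) ^ 2) ^ r

/-- **Theorem Z** -/
def Stmt_Z : Prop :=
  ∀ ε : ℝ, 0 < ε → ε < 1 → ∃ κ : ℝ, 0 < κ ∧ ∃ N₀ : ℕ, ∀ N : ℕ, N₀ ≤ N → ∀ b : ℕ, 2 ≤ b →
    Real.log b ≤ (Real.log N) ^ (1 / ε) →
    ((MP_2738db_nt_U.Exc N b ((Real.log N) ^ (1 / ε))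
      (Real.exp ((Real.log N) ^ (1 - ε)))).ncard : ℝ) ≤ (N : ℝ) ^ (1 - κ)

end Pool.Agent.Work.MP_2738db_nt_Z
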